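import Pool.Agent.Helper76.TX.StAn

/-! Project TX, module AN3: Gauss sums of primitive Dirichlet characters. -/

set_option autoImplicit false

namespace Pool.Agent.Helper29.TX

open Pool.Agent.Helper76.TX Pool.Agent.Helper14.CV

private lemma factors_inv {D d : ℕ} (χ : DirichletCharacter ℂ D)
    (h : χ.FactorsThrough d) : χ⁻¹.FactorsThrough d := by
  obtain ⟨hd, χ₀, hχ⟩ := h
  refine ⟨hd, χ₀⁻¹, ?_⟩
  rw [map_inv, ← hχ]

private lemma conductor_inv' {D : ℕ} (χ : DirichletCharacter ℂ D) :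
    χ⁻¹.conductor = χ.conductor := by
  have hs : χ⁻¹.conductorSet = χ.conductorSet := by
    ext d
    rw [DirichletCharacter.mem_conductorSet_iff, DirichletCharacter.mem_conductorSet_iff]
    constructor
    · intro h
      have := factors_inv χ⁻¹ h
      rwa [inv_inv] at this
    · exact factors_inv χ
  unfold DirichletCharacter.conductor
  rw [hs]

private lemma prim_inv {D : ℕ} (χ : DirichletCharacter ℂ D) (h : χ.IsPrimitive) :
    χ⁻¹.IsPrimitive := by
  rw [DirichletCharacter.isPrimitive_def] at h ⊢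
  rw [conductor_inv', h]

private lemma sum_zmod {D : ℕ} [NeZero D] (F : ZMod D → ℂ) :
    ∑ u ∈ Finset.range D, F (u : ZMod D) = ∑ a : ZMod D, F a := by
  refine Finset.sum_bij (fun u _ => (u : ZMod D)) (fun _ _ => Finset.mem_univ _) ?_ ?_ ?_
  · intro a ha b hb hab
    rw [ZMod.natCast_eq_natCast_iff', Nat.mod_eq_of_lt (Finset.mem_range.1 ha),
      Nat.mod_eq_of_lt (Finset.mem_range.1 hb)] at hab
    exact hab
  · intro b _
    exact ⟨b.val, Finset.mem_range.2 (ZMod.val_lt b), ZMod.natCast_zmod_val b⟩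
  · intro a _
    rfl

private lemma std_nat {D : ℕ} [NeZero D] (m u : ℕ) :
    ZMod.stdAddChar (N := D) ((m : ZMod D) * (u : ZMod D)) =
      Complex.exp (2 * Real.pi * Complex.I * m * ((u : ℂ) / (D : ℂ))) := by
  have h := ZMod.stdAddChar_coe (N := D) ((m : ℤ) * (u : ℤ))
  push_cast at h
  rw [h]
  congr 1
  ring

/-- AN3. -/
theorem hAN3 : StAN3 := by
  intro D _ χ hχ
  have hp := prim_inv χ hχ
  refine ⟨?_, ?_⟩
  · intro h0
    unfold tau at h0
    obtain ⟨ψ, hψ⟩ : ∃ ψ : DirichletCharacter ℂ D, ψ = χ⁻¹ := ⟨_, rfl⟩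
    rw [← hψ] at hp h0
    have hF : ZMod.dft (ψ : ZMod D → ℂ) = 0 := by
      funext k
      rw [DirichletCharacter.IsPrimitive.fourierTransform_eq_inv_mul_gaussSum hp, h0, mul_zero]
      rfl
    have h1 : (ψ : ZMod D → ℂ) = 0 := ZMod.dft.injective (hF.trans (map_zero ZMod.dft).symm)
    have h2 := congrFun h1 1
    rw [MulChar.map_one] at h2
    exact one_ne_zero h2
  · intro m
    have h := gaussSum_mulShift_of_isPrimitive (ZMod.stdAddChar (N := D)) hp (m : ZMod D)
    rw [inv_inv] at h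
    unfold tau
    rw [← h, gaussSum, ← sum_zmod]
    refine Finset.sum_congr rfl fun u _ => ?_
    rw [AddChar.mulShift_apply, std_nat]

end Pool.Agent.Helper29.TX
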